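import Pool.Agent.H543.MQ.Pairs

/-!
# Almost primes `P` with `P (P + 1) / 2 + 1` a `P₂`, in bounded clusters
-/

set_option autoImplicit false

namespace Pool.Agent.Results.MP_b07a8a_nt.ClustersOfAlmostPrimePairs

open Finset Filter

/-- `n > 0` has at most `r` prime factors (with multiplicity), all of them `≥ y`. -/
def AlmostPrime (r : ℕ) (y : ℝ) (n : ℤ) : Prop :=
  0 < n ∧ n.natAbs.primeFactorsList.length ≤ r ∧ ∀ p : ℕ, p.Prime → (p : ℤ) ∣ n → y ≤ p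

/-- `P = 2 x + 7` is almost prime (at most `r` prime factors, all `≥ N ^ δ`) and
`P (P + 1) / 2 + 1` has at most two prime factors, all `≥ N ^ (6 / 25)`. -/
def Good (r : ℕ) (δ : ℝ) (N x : ℕ) : Prop :=
  AlmostPrime r ((N : ℝ) ^ δ) (2 * x + 7) ∧
    AlmostPrime 2 ((N : ℝ) ^ (6 / 25 : ℝ)) ((2 * x + 7) * ((2 * x + 7) + 1) / 2 + 1)


open Classical in
/-- The number of the `n` in `(N, N + X]` such that all `n + h`, `h ∈ H`, are good. -/
noncomputable def number (r : ℕ) (δ : ℝ) (H : Finset ℕ) (N X : ℕ) : ℕ :=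
  ((Ioc N (N + X)).filter (fun n : ℕ => ∀ h ∈ H, Good r δ N (n + h))).card

/-- There is a progression `n, n + e, ..., n + (l - 1) e` in `(N, N + X]` with difference
`1 ≤ e ≤ (log N) ^ B` such that all `n + j e + h`, `j < l`, `h ∈ H`, are good. -/
def Progression (r : ℕ) (δ : ℝ) (H : Finset ℕ) (l B N X : ℕ) : Prop :=
  ∃ n e : ℕ, N < n ∧ n + (l - 1) * e ≤ N + X ∧ 1 ≤ e ∧ (e : ℝ) ≤ Real.log N ^ B ∧
    ∀ j < l, ∀ h ∈ H, Good r δ N (n + j * e + h)

/-- The pattern `H` occurs again and again: for every `l` there are infinitely many `N` such that the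
interval `(N, N + X]`, `X = ⌈N ^ (1 - δ₀)⌉`, contains at least `X / (log N) ^ D` integers `n` with all
`n + h`, `h ∈ H`, good, and a progression of length `l` of such `n` with difference at most a power of
`log N`. -/
def Recurrent (r : ℕ) (δ₀ δ : ℝ) (D : ℕ) (H : Finset ℕ) : Prop :=
  ∀ l : ℕ, 2 ≤ l → ∃ B : ℕ, ∃ᶠ N : ℕ in atTop,
    (⌈(N : ℝ) ^ (1 - δ₀)⌉₊ : ℝ) / Real.log N ^ D ≤ number r δ H N ⌈(N : ℝ) ^ (1 - δ₀)⌉₊ ∧
    Progression r δ H l B N ⌈(N : ℝ) ^ (1 - δ₀)⌉₊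

open Classical in
/-- **Bounded clusters of almost primes `P` with `P (P + 1) / 2 + 1` a `P₂`.** -/
theorem result :
    ∃ δ₀ : ℝ, 0 < δ₀ ∧ ∀ m : ℕ, ∃ (K D r : ℕ) (δ : ℝ), 0 < δ ∧
      -- every set with at least `K` elements contains a pattern with `m` elements
      (∀ S : Finset ℕ, K ≤ S.card → ∀ l : ℕ, 2 ≤ l → ∃ B : ℕ, ∀ᶠ N : ℕ in atTop,
        ∀ X : ℕ, (N : ℝ) ^ (1 - δ₀) ≤ X → 2 * X ≤ N → ∃ H ⊆ S, H.card = m ∧
          X / Real.log N ^ D ≤ number r δ H N X ∧ Progression r δ H l B N X) ∧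
      -- a positive proportion of the patterns with `m` elements are recurrent
      (∀ U : Finset ℕ, K ≤ U.card → U.card.choose m ≤
        K.choose m * ((U.powersetCard m).filter (Recurrent r δ₀ δ D)).card) := by
  have hD : ¬ IsSquare ((1 : ℤ) ^ 2 - 4 * 1 * 2) := by
    rintro ⟨r, hr⟩
    have := mul_self_nonneg r
    omega
  obtain ⟨δ₀, h0, h⟩ := Pool.Agent.H543.MQ.pairs 1 1 2 2 7 29 (by norm_num) (by norm_num) hD
    (by decide) (by norm_num)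
  refine ⟨δ₀, h0, fun m => ?_⟩
  obtain ⟨K, D, r, δ, hδ, h⟩ := h m
  refine ⟨K, D, r, δ, hδ, h (fun N x => Good r δ N x) (fun N x _ h1 h2 => ⟨h1, ?_⟩)⟩
  obtain ⟨Q, hQ, hQ2⟩ := h2
  have e : (2 * (x : ℤ) + 7) * ((2 * x + 7) + 1) / 2 + 1 = Q := by
    have e1 : (2 * (x : ℤ) + 7) * ((2 * x + 7) + 1) = 2 * (Q - 1) := by linarith
    rw [e1]
    omega
  rw [e]
  exact hQ2

end Pool.Agent.Results.MP_b07a8a_nt.ClustersOfAlmostPrimePairs
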